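import Pool.Agent.Helper13.Mob.Defs
import Pool.Agent.Helper13.Spec6
import Pool.Agent.Helper13.Perm4
import Pool.Agent.Helper13.Weak2
import Pool.Agent.Helper13.RegSol

/-!
Stubs of the independent pieces.
-/

set_option autoImplicit false
set_option linter.unusedSectionVars false

namespace Pool.Agent.Helper13.Mob

open Polynomial
open scoped TensorProduct

universe u

/-! ### MB-D1 -/

/-- Bertini-Noether for a family of specializations. -/
theorem exists_absIrr_fam {L R L1 F : Type u} [Field L] [CommRing R] [IsDomain R] [Field L1]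
    [CharZero L1] [Field F] [Algebra R L1] [IsFractionRing R L1] [Algebra L1 F] {ι : Type u}
    (φ : ι → R →+* L) (hφ : ∀ q : R, q ≠ 0 → ∃ a, φ a q ≠ 0)
    (hcl : ∀ y : F, IsAlgebraic L1 y → ∃ ω, algebraMap L1 F ω = y) {T z : F} {d : ℕ}
    (hlin : ∀ p : L1[X][X], p.natDegree < d → ev2 L1 T z p = 0 → p = 0)
    (f : R[X][X]) (hf : f.Monic)
    (hfz : ev2 L1 T z (f.map (mapRingHom (algebraMap R L1))) = 0) (hd : 0 < d) :
    ∃ a, AbsIrr (f.map (mapRingHom (φ a))) d := by
  sorry

/-! ### MB-D2 -/

/-- Specialization of regular solutions along a family of points of a normal ring. -/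
theorem regSol_of_family {K L G R R' K1 L1 ι : Type u} [Field K] [CharZero K] [Field L]
    [Algebra K L] [FiniteDimensional K L] [Group G] [Finite G]
    [CommRing R] [IsDomain R] [IsIntegrallyClosed R]
    [CommRing R'] [IsDomain R'] [IsIntegrallyClosed R'] [Algebra R R'] [Algebra.IsIntegral R R']
    [Algebra K R] [Algebra L R'] [Field K1] [Field L1] [Algebra R K1] [IsFractionRing R K1]
    [Algebra R' L1] [IsFractionRing R' L1] [Algebra K1 L1] [FiniteDimensional K1 L1]
    (hRR : ∀ r : R, algebraMap K1 L1 (algebraMap R K1 r) = algebraMap R' L1 (algebraMap R R' r))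
    (hKL : ∀ x : K, algebraMap L R' (algebraMap K L x) = algebraMap R R' (algebraMap K R x))
    (hgen : ∀ x : R', x ∈ Subring.closure
      (Set.range (algebraMap R R') ∪ Set.range (algebraMap L R')))
    (hrank : Module.finrank K1 L1 = Module.finrank K L)
    (α1 : G →* (L1 ≃ₐ[K1] L1)) (α : G →* (L ≃ₐ[K] L))
    (hαα : ∀ g l, α1 g (algebraMap R' L1 (algebraMap L R' l)) =
      algebraMap R' L1 (algebraMap L R' (α g l)))
    (φ : ι → R →+* K) (φ' : ι → R' →+* L)
    (hφK : ∀ a x, φ a (algebraMap K R x) = x)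
    (hφL : ∀ a l, φ' a (algebraMap L R' l) = l)
    (hφφ : ∀ a r, φ' a (algebraMap R R' r) = algebraMap K L (φ a r))
    (hpt : ∀ q : R', q ≠ 0 → ∃ a, φ' a q ≠ 0)
    (h : RegSol K1 L1 G α1) : RegSol K L G α := by
  sorry

/-! ### MB-D3 -/

/-- A regular solution is defined over a finitely generated subfield. -/
theorem regSol_descend_fg {K L K' L' G : Type u} [Field K] [CharZero K] [Field L] [Algebra K L]
    [FiniteDimensional K L] [IsGalois K L] [Field K'] [Algebra K K'] [Field L'] [Algebra K' L']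
    [Algebra L L'] [Algebra K L'] [IsScalarTower K L L'] [IsScalarTower K K' L']
    [FiniteDimensional K' L'] [IsGalois K' L'] [Group G] [Finite G]
    (hrank : Module.finrank K' L' = Module.finrank K L)
    (α : G →* (L ≃ₐ[K] L)) (α' : G →* (L' ≃ₐ[K'] L'))
    (hα : ∀ g l, α' g (algebraMap L L' l) = algebraMap L L' (α g l))
    (h : RegSol K' L' G α') :
    ∃ (S : Finset K') (L1 : Type u) (_ : Field L1)
      (_ : Algebra (IntermediateField.adjoin K (S : Set K')) L1) (_ : Algebra L L1)
      (_ : FiniteDimensional (IntermediateField.adjoin K (S : Set K')) L1)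
      (α1 : G →* (L1 ≃ₐ[IntermediateField.adjoin K (S : Set K')] L1)),
      (∀ x : K, algebraMap (IntermediateField.adjoin K (S : Set K')) L1
        (algebraMap K (IntermediateField.adjoin K (S : Set K')) x) =
        algebraMap L L1 (algebraMap K L x)) ∧
      Module.finrank (IntermediateField.adjoin K (S : Set K')) L1 = Module.finrank K L ∧
      (∀ g l, α1 g (algebraMap L L1 l) = algebraMap L L1 (α g l)) ∧
      RegSol (IntermediateField.adjoin K (S : Set K')) L1 G α1 := by
  sorry

/-! ### MB-D4 -/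

/-- Specialization from a finitely generated extension with many rational points. -/
theorem regSol_of_ec_fg {K L K1 L1 G : Type u} [Field K] [CharZero K] [Field L] [Algebra K L]
    [FiniteDimensional K L] [IsGalois K L] [Field K1] [Algebra K K1] [Field L1] [Algebra K1 L1]
    [Algebra L L1] [Algebra K L1] [IsScalarTower K L L1] [IsScalarTower K K1 L1]
    [FiniteDimensional K1 L1] [Group G] [Finite G]
    (hfg : ∃ S : Finset K1, IntermediateField.adjoin K (S : Set K1) = ⊤)
    (hec : ECIn K K1)
    (hrank : Module.finrank K1 L1 = Module.finrank K L)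
    (α : G →* (L ≃ₐ[K] L)) (α1 : G →* (L1 ≃ₐ[K1] L1))
    (hα : ∀ g l, α1 g (algebraMap L L1 l) = algebraMap L L1 (α g l))
    (h : RegSol K1 L1 G α1) : RegSol K L G α := by
  sorry

/-! ### MB-T4 -/

section centers

variable {k κ Γ J : Type u} [Field k] [CharZero k] [Field κ] [Algebra k[X] κ]
  [IsFractionRing k[X] κ] [Group Γ] [Finite Γ] [Finite J] [MulSemiringAction Γ k]
  [MulSemiringAction Γ κ]

/-- Free orbits of rational points under semilinear Moebius transformations. -/
theorem exists_centers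
    (hk : ∀ (γ : Γ) (a : k), γ • algebraMap k[X] κ (C a) = algebraMap k[X] κ (C (γ • a)))
    (hmob : ∀ γ : Γ, ∃ a b c d : k, a * d - b * c ≠ 0 ∧
      algebraMap k[X] κ (C c * X + C d) * (γ • algebraMap k[X] κ X) =
        algebraMap k[X] κ (C a * X + C b))
    (hfaith : ∀ γ : Γ, (∀ x : κ, γ • x = x) → γ = 1) :
    ∃ c : Γ × J → k, Function.Injective c ∧
      ∀ (γ : Γ) (a b c' d : k), a * d - b * c' ≠ 0 →
        algebraMap k[X] κ (C c' * X + C d) * (γ • algebraMap k[X] κ X) =
          algebraMap k[X] κ (C a * X + C b) →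
        ∀ i : Γ × J, ∃ e : k, e ≠ 0 ∧
          (γ • algebraMap k[X] κ (X - C (c i))) * algebraMap k[X] κ (C c' * X + C d) =
            algebraMap k[X] κ (C e * (X - C (c (γ * i.1, i.2)))) := by
  sorry

end centers

/-! ### MB-T6 -/

section twist

variable {K L G Ω F' : Type u} [Field K] [Field L] [Algebra K L] [Field Ω] [Field F']
  [Group G] [Finite G] [Algebra Ω F'] [MulSemiringAction G F']
  (ψ : Ω →+* L)
  {T : F'} (hT : Transcendental Ω T)
  (α : G →* (L ≃ₐ[K] L)) (om : (L ≃ₐ[K] L) → Ω →+* Ω)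
  (h1 : ∀ (g : G) (ω : Ω), g • algebraMap Ω F' ω = algebraMap Ω F' (om (α g) ω))
  (hψ : ∀ (γ : L ≃ₐ[K] L) (ω : Ω), ψ (om γ ω) = γ (ψ ω))
  (hfix : ∀ f : F', (∀ n ∈ α.ker, n • f = f) → f ∈ IntermediateField.adjoin Ω {T})
  (θ : L) (A B C D : (L ≃ₐ[K] L) → Ω) (hdet : ∀ γ, A γ * D γ - B γ * C γ ≠ 0)
  (hT' : ∀ g : G, (algebraMap Ω F' (C (α g)) * T + algebraMap Ω F' (D (α g))) * (g • T) =
    algebraMap Ω F' (A (α g)) * T + algebraMap Ω F' (B (α g)))
  (hθ : ∀ γ : L ≃ₐ[K] L, (ψ (C γ) * θ + ψ (D γ)) * γ θ = ψ (A γ) * θ + ψ (B γ))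
  (hα : Function.Surjective α)
  [FiniteDimensional K L] [IsGalois K L] [CharZero Ω]
  (hcl : ∀ f : F', IsAlgebraic Ω f → ∃ ω, algebraMap Ω F' ω = f)
  (hfaith : ∀ g : G, (∀ f : F', g • f = f) → g = 1)

include hT h1 hψ hfix hdet hT' hθ hα hcl hfaith in
/-- Twisting a cover of the projective line by a semilinear Moebius cocycle. -/
theorem regSol_twist : RegSol K L G α := by
  sorry

end twist

/-! ### MB-T7a -/

/-- Existential closedness passes to the compositum with a linearly disjoint field. -/
theorem ec_compositum {k K Ω W : Type u} [Field k] [Field K] [Field Ω] [Field W]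
    [Algebra k K] [Algebra k Ω] [Algebra K W] [Algebra Ω W] [Algebra k W]
    [IsScalarTower k K W] [IsScalarTower k Ω W]
    (hld : ∀ (ι : Type u) (v : ι → K), LinearIndependent k v →
      LinearIndependent Ω (fun i => algebraMap K W (v i)))
    (hec : ECIn k Ω) (K' : Type u) [Field K'] [Algebra K K'] [Algebra K' W]
    [IsScalarTower K K' W]
    (hK' : ∀ x : K', algebraMap K' W x ∈ Subfield.closure
      (Set.range (algebraMap K W) ∪ Set.range (algebraMap Ω W))) : ECIn K K' := by
  sorry

/-! ### MB-T8 -/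

/-- Adjoining roots of unity to a Galois extension. -/
theorem exists_adjoin_root {K L : Type u} [Field K] [CharZero K] [Field L] [Algebra K L]
    [FiniteDimensional K L] [IsGalois K L] (e : ℕ) (he : 0 < e) :
    ∃ (L' : Type u) (_ : Field L') (_ : Algebra L L') (_ : Algebra K L')
      (_ : IsScalarTower K L L') (_ : FiniteDimensional K L') (_ : IsGalois K L') (ζ : L'),
      IsPrimitiveRoot ζ e ∧ ∀ σ : L' ≃ₐ[K] L',
        (∀ x : L, σ (algebraMap L L' x) = algebraMap L L' x) → σ ζ = ζ → σ = 1 := by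
  sorry

/-! ### MB-T7 -/

/-- The compositum with `k((z))`: if `k` is ample, `K` a field containing `k` and `L / K` finite
Galois, there is an extension `K' / K` in which `K` is existentially closed, with
`L' = L K'` Galois over `K'` with the same group, such that for every subfield `k'` of `L`,
finite over `k` and stable under `Gal(L/K)`, the field `Ω` of Laurent series over `k'` embeds
equivariantly in `L'`. -/
theorem exists_laurent_ext {k K L : Type u} [Field k] [Field K] [Field L] [CharZero k]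
    [Algebra k K] [Algebra K L] [Algebra k L] [IsScalarTower k K L] [FiniteDimensional K L]
    [IsGalois K L] (hk : IsAmpleField k) :
    ∃ (K' L' : Type u) (_ : Field K') (_ : Field L') (_ : Algebra K K') (_ : Algebra K' L')
      (_ : Algebra L L') (_ : Algebra K L') (_ : IsScalarTower K L L')
      (_ : IsScalarTower K K' L') (_ : FiniteDimensional K' L') (_ : IsGalois K' L')
      (r : (L' ≃ₐ[K'] L') ≃* (L ≃ₐ[K] L)),
      ECIn K K' ∧ Module.finrank K' L' = Module.finrank K L ∧
      (∀ (τ : L' ≃ₐ[K'] L') (l : L), τ (algebraMap L L' l) = algebraMap L L' (r τ l)) ∧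
      ∀ (k' : IntermediateField k L) (_ : FiniteDimensional k k') (Ω : Type u) (_ : Field Ω)
        (_ : Algebra (PowerSeries k') Ω) (_ : IsFractionRing (PowerSeries k') Ω)
        (act : (L ≃ₐ[K] L) → Ω →+* Ω)
        (_ : ∀ (γ : L ≃ₐ[K] L) (f g : PowerSeries k'),
          (∀ m, ((PowerSeries.coeff m g : k') : L) = γ (PowerSeries.coeff m f : k')) →
          act γ (algebraMap (PowerSeries k') Ω f) = algebraMap (PowerSeries k') Ω g)
        (_ : ∀ (γ : L ≃ₐ[K] L) (x : L), x ∈ k' → γ x ∈ k'),
        ∃ ψ : Ω →+* L', (∀ x : k', ψ (algebraMap (PowerSeries k') Ω (PowerSeries.C x)) =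
            algebraMap L L' x) ∧
          ∀ (τ : L' ≃ₐ[K'] L') (ω : Ω), ψ (act (r τ) ω) = τ (ψ ω) := by
  sorry

end Pool.Agent.Helper13.Mob
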